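import Mathlib
import Pool.Agent.W346.PV.Newt

set_option autoImplicit false

/-!
# Pairs of vectors with `d + 1` coordinates and equal power sums of the orders `1, ..., d`
-/

open Finset Polynomial

namespace Pool.Agent.Run7.h175.MV

/-- equal power sums of the orders `1, ..., d` -/
def Eqp (d : ℕ) {k : ℕ} (n m : Fin k → ℕ) : Prop :=
  ∀ j : Fin d, ∑ i, n i ^ (j.val + 1) = ∑ i, m i ^ (j.val + 1)

lemma Eqp.symm {d k : ℕ} {n m : Fin k → ℕ} (h : Eqp d n m) : Eqp d m n := fun j => (h j).symm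

lemma Eqp.trans {d k : ℕ} {n m l : Fin k → ℕ} (h : Eqp d n m) (h' : Eqp d m l) : Eqp d n l :=
  fun j => (h j).trans (h' j)

/-- the difference of the two products is constant -/
lemma poly_const {d : ℕ} {n m : Fin (d + 1) → ℕ} (h : Eqp d n m) (x y : ℤ) :
    ∏ i, (x - n i) - ∏ i, (x - m i) = ∏ i, (y - n i) - ∏ i, (y - m i) := by
  have h1 := Pool.Agent.W346.PV.Newt.main (d + 1) d n m h
  have h2 : ((∏ i, ((X : ℤ[X]) - C (n i : ℤ))) - ∏ i, ((X : ℤ[X]) - C (m i : ℤ))).degree ≤ 0 := by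
    have h3 : d + 1 - d = 1 := by omega
    rw [h3] at h1
    exact Nat.WithBot.lt_one_iff_le_zero.mp (by exact_mod_cast h1)
  have h3 := eq_C_of_degree_le_zero h2
  have h4 : ∀ z : ℤ, ∏ i, (z - n i) - ∏ i, (z - m i) =
      ((∏ i, ((X : ℤ[X]) - C (n i : ℤ))) - ∏ i, ((X : ℤ[X]) - C (m i : ℤ))).eval z := by
    intro z
    simp [eval_prod]
  rw [h4 x, h4 y, h3]
  simp

/-- the product of the coordinates -/
def pr {k : ℕ} (n : Fin k → ℕ) : ℕ := ∏ i, n i

lemma prod_zero {k : ℕ} (n : Fin k → ℕ) : ∏ i, ((0 : ℤ) - n i) = (-1) ^ k * (pr n : ℤ) := by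
  unfold pr
  push_cast
  rw [show (-1 : ℤ) ^ k = ∏ _i : Fin k, (-1 : ℤ) by simp, ← Finset.prod_mul_distrib]
  exact Finset.prod_congr rfl fun i _ => by ring

lemma poly_at {d : ℕ} {n m : Fin (d + 1) → ℕ} (h : Eqp d n m) (x : ℤ) :
    ∏ i, (x - n i) - ∏ i, (x - m i) = (-1) ^ (d + 1) * ((pr n : ℤ) - pr m) := by
  rw [poly_const h x 0, prod_zero, prod_zero]
  ring

/-- the value at a coordinate of `m` -/
lemma poly_root {d : ℕ} {n m : Fin (d + 1) → ℕ} (h : Eqp d n m) (i : Fin (d + 1)) :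
    ∏ j, ((m i : ℤ) - n j) = (-1) ^ (d + 1) * ((pr n : ℤ) - pr m) := by
  rw [← poly_at h (m i)]
  rw [Finset.prod_eq_zero (f := fun j => (m i : ℤ) - m j) (Finset.mem_univ i) (by ring)]
  ring

/-- the vectors with coordinates in `[1, M]` -/
def P (k M : ℕ) : Finset (Fin k → ℕ) := Fintype.piFinset fun _ => Icc 1 M

lemma mem_P {k M : ℕ} {n : Fin k → ℕ} : n ∈ P k M ↔ ∀ i, n i ∈ Icc 1 M := by
  simp [P]

lemma card_P (k M : ℕ) : (P k M).card = M ^ k := by
  simp [P]

/-- the vectors all whose coordinates are coordinates of `n` -/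
lemma card_sub {k : ℕ} (A : Finset (Fin k → ℕ)) (n : Fin k → ℕ) (h : ∀ m ∈ A, ∀ i, ∃ j, m i = n j) :
    A.card ≤ k ^ k := by
  classical
  have h1 : A ⊆ Fintype.piFinset fun _ : Fin k => (univ : Finset (Fin k)).image n := by
    intro m hm
    rw [Fintype.mem_piFinset]
    intro i
    obtain ⟨j, hj⟩ := h m hm i
    rw [Finset.mem_image]
    exact ⟨j, Finset.mem_univ _, hj.symm⟩
  refine (Finset.card_le_card h1).trans ?_
  rw [Fintype.card_piFinset]
  simp only [Finset.prod_const, Finset.card_univ, Fintype.card_fin]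
  refine Nat.pow_le_pow_left ?_ k
  exact Finset.card_image_le.trans (by simp)

open Classical in
lemma card_diag {d : ℕ} (M : ℕ) (n : Fin (d + 1) → ℕ) :
    ((P (d + 1) M).filter fun m => Eqp d n m ∧ pr n = pr m).card ≤ (d + 1) ^ (d + 1) := by
  refine card_sub _ n ?_
  intro m hm i
  rw [Finset.mem_filter] at hm
  have h1 := poly_root hm.2.1 i
  rw [hm.2.2, sub_self, mul_zero, Finset.prod_eq_zero_iff] at h1
  obtain ⟨j, -, hj⟩ := h1
  exact ⟨j, by exact_mod_cast sub_eq_zero.mp hj⟩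

open Classical in
lemma card_off {d : ℕ} (M x : ℕ) (n : Fin (d + 1) → ℕ) :
    ((P (d + 1) M).filter fun m => Eqp d n m ∧ m 0 = x).card ≤ (d + 1) ^ (d + 1) := by
  rcases Finset.eq_empty_or_nonempty ((P (d + 1) M).filter fun m => Eqp d n m ∧ m 0 = x) with h | h
  · rw [h]
    simp
  obtain ⟨m₀, hm₀⟩ := h
  refine card_sub _ m₀ ?_
  intro m hm i
  rw [Finset.mem_filter] at hm hm₀
  have h1 : Eqp d m₀ m := hm₀.2.1.symm.trans hm.2.1
  have h2 := poly_root h1 i
  have h3 := poly_root h1.symm 0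
  -- `m₀` and `m` have a common coordinate, so the constant vanishes
  have h4 : ∏ j, ((m₀ 0 : ℤ) - m j) = 0 := by
    refine Finset.prod_eq_zero (Finset.mem_univ 0) ?_
    rw [hm.2.2, hm₀.2.2, sub_self]
  have h5 : (pr m₀ : ℤ) - pr m = 0 := by
    rw [h4] at h3
    have h6 : ((-1 : ℤ) ^ (d + 1)) ≠ 0 := pow_ne_zero _ (by norm_num)
    have := (mul_eq_zero.mp h3.symm).resolve_left h6
    linarith
  rw [h5, mul_zero, Finset.prod_eq_zero_iff] at h2
  obtain ⟨j, -, hj⟩ := h2
  exact ⟨j, by exact_mod_cast sub_eq_zero.mp hj⟩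

/-- `1 / |z|`, and `0` for `z = 0` -/
noncomputable def rec (z : ℤ) : ℝ := 1 / |(z : ℝ)|

lemma rec_nonneg (z : ℤ) : 0 ≤ rec z := by unfold rec; positivity

lemma sum_rec_le (M x : ℕ) (hx : x ∈ Icc 1 M) : ∑ y ∈ Icc 1 M, rec ((x : ℤ) - y) ≤
    2 * (1 + Real.log M) := by
  rw [Finset.mem_Icc] at hx
  have hh : ∀ K : ℕ, K ≤ M → ∑ u ∈ Icc 1 K, (1 / (u : ℝ)) ≤ 1 + Real.log M := by
    intro K hK
    rcases Nat.eq_zero_or_pos K with h0 | h0
    · subst h0
      have : 0 ≤ Real.log M := Real.log_natCast_nonneg M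
      simp only [show Icc 1 0 = (∅ : Finset ℕ) by rfl, Finset.sum_empty]
      linarith
    have h1 := harmonic_le_one_add_log K
    rw [harmonic_eq_sum_Icc] at h1
    push_cast at h1
    have h2 : Real.log K ≤ Real.log M := Real.log_le_log (by exact_mod_cast h0) (by exact_mod_cast hK)
    simp only [one_div]
    linarith
  have h1 : Icc 1 M = Icc 1 (x - 1) ∪ ({x} ∪ Icc (x + 1) M) := by
    ext y
    simp only [Finset.mem_Icc, Finset.mem_union, Finset.mem_singleton]
    omega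
  rw [h1, Finset.sum_union, Finset.sum_union]
  · have h2 : ∑ y ∈ Icc 1 (x - 1), rec ((x : ℤ) - y) = ∑ u ∈ Icc 1 (x - 1), (1 / (u : ℝ)) := by
      refine Finset.sum_bij' (fun y _ => x - y) (fun u _ => x - u) ?_ ?_ ?_ ?_ ?_
      · intro y hy
        rw [Finset.mem_Icc] at hy ⊢
        omega
      · intro y hy
        rw [Finset.mem_Icc] at hy ⊢
        omega
      · intro y hy
        rw [Finset.mem_Icc] at hy
        omega
      · intro y hy
        rw [Finset.mem_Icc] at hy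
        omega
      · intro y hy
        rw [Finset.mem_Icc] at hy
        unfold rec
        rw [Nat.cast_sub (by omega)]
        push_cast
        rw [abs_of_nonneg]
        have : (y : ℝ) ≤ x := by exact_mod_cast (by omega : y ≤ x)
        linarith
    have h3 : ∑ y ∈ Icc (x + 1) M, rec ((x : ℤ) - y) = ∑ u ∈ Icc 1 (M - x), (1 / (u : ℝ)) := by
      refine Finset.sum_bij' (fun y _ => y - x) (fun u _ => u + x) ?_ ?_ ?_ ?_ ?_
      · intro y hy
        rw [Finset.mem_Icc] at hy ⊢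
        omega
      · intro y hy
        rw [Finset.mem_Icc] at hy ⊢
        omega
      · intro y hy
        rw [Finset.mem_Icc] at hy
        omega
      · intro y hy
        rw [Finset.mem_Icc] at hy
        omega
      · intro y hy
        rw [Finset.mem_Icc] at hy
        unfold rec
        rw [Nat.cast_sub (by omega)]
        push_cast
        rw [abs_sub_comm, abs_of_nonneg]
        have : (x : ℝ) ≤ y := by exact_mod_cast (by omega : x ≤ y)
        linarith
    have h4 : ∑ y ∈ ({x} : Finset ℕ), rec ((x : ℤ) - y) = 0 := by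
      simp [rec]
    rw [h2, h3, h4]
    have h5 := hh (x - 1) (by omega)
    have h6 := hh (M - x) (by omega)
    linarith
  · rw [Finset.disjoint_left]
    intro y hy
    simp only [Finset.mem_singleton, Finset.mem_Icc] at hy ⊢
    omega
  · rw [Finset.disjoint_left]
    intro y hy
    simp only [Finset.mem_union, Finset.mem_singleton, Finset.mem_Icc] at hy ⊢
    omega

open Classical in
/-- the sum of the reciprocals of the differences of the products -/
lemma sum_inv_le (d M : ℕ) :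
    ∑ n ∈ P (d + 1) M, ∑ m ∈ (P (d + 1) M).filter (fun m => Eqp d n m ∧ pr n ≠ pr m),
      1 / |((pr n : ℝ) - pr m)| ≤
    (d + 1) ^ (d + 1) * (M * (2 * (1 + Real.log M)) ^ (d + 1)) := by
  have hlog : 0 ≤ Real.log M := Real.log_natCast_nonneg M
  have h1 : ∀ n ∈ P (d + 1) M,
      ∑ m ∈ (P (d + 1) M).filter (fun m => Eqp d n m ∧ pr n ≠ pr m), 1 / |((pr n : ℝ) - pr m)| ≤
      ∑ x ∈ Icc 1 M, ((d + 1 : ℕ) : ℝ) ^ (d + 1) * ∏ j, rec ((x : ℤ) - n j) := by
    intro n hn
    have h2 : ∀ m ∈ (P (d + 1) M).filter (fun m => Eqp d n m ∧ pr n ≠ pr m),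
        1 / |((pr n : ℝ) - pr m)| = ∏ j, rec ((m 0 : ℤ) - n j) := by
      intro m hm
      rw [Finset.mem_filter] at hm
      have h3 := congrArg (fun z : ℤ => |(z : ℝ)|) (poly_root hm.2.1 0)
      simp only [Int.cast_prod, Int.cast_mul, Int.cast_pow, Int.cast_neg, Int.cast_one, abs_mul,
        abs_pow, abs_neg, abs_one, one_pow, one_mul, Int.cast_sub, Int.cast_natCast,
        Finset.abs_prod] at h3
      rw [← h3]
      unfold rec
      rw [Finset.prod_div_distrib, Finset.prod_const_one]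
      push_cast
      rfl
    rw [Finset.sum_congr rfl h2]
    rw [← Finset.sum_fiberwise_of_maps_to (s := (P (d + 1) M).filter
      (fun m => Eqp d n m ∧ pr n ≠ pr m)) (t := Icc 1 M) (g := fun m => m 0)
      (fun m hm => (mem_P.mp (Finset.mem_filter.mp hm).1) 0)]
    refine Finset.sum_le_sum fun x _ => ?_
    have h4 : ∀ m ∈ ((P (d + 1) M).filter (fun m => Eqp d n m ∧ pr n ≠ pr m)).filter
        (fun m => m 0 = x), ∏ j, rec ((m 0 : ℤ) - n j) = ∏ j, rec ((x : ℤ) - n j) := by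
      intro m hm
      rw [(Finset.mem_filter.mp hm).2]
    rw [Finset.sum_congr rfl h4, Finset.sum_const, nsmul_eq_mul]
    refine mul_le_mul_of_nonneg_right ?_ (Finset.prod_nonneg fun j _ => rec_nonneg _)
    have h5 : (((P (d + 1) M).filter (fun m => Eqp d n m ∧ pr n ≠ pr m)).filter
        (fun m => m 0 = x)).card ≤ (d + 1) ^ (d + 1) := by
      refine (Finset.card_le_card ?_).trans (card_off M x n)
      intro m hm
      rw [Finset.mem_filter, Finset.mem_filter] at hm
      rw [Finset.mem_filter]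
      exact ⟨hm.1.1, hm.1.2.1, hm.2⟩
    exact_mod_cast h5
  refine (Finset.sum_le_sum h1).trans ?_
  rw [Finset.sum_comm]
  have h2 : ∀ x ∈ Icc 1 M, ∑ n ∈ P (d + 1) M,
      ((d + 1 : ℕ) : ℝ) ^ (d + 1) * ∏ j, rec ((x : ℤ) - n j) ≤
      ((d + 1 : ℕ) : ℝ) ^ (d + 1) * (2 * (1 + Real.log M)) ^ (d + 1) := by
    intro x hx
    rw [← Finset.mul_sum]
    refine mul_le_mul_of_nonneg_left ?_ (by positivity)
    have h3 : ∑ n ∈ P (d + 1) M, ∏ j, rec ((x : ℤ) - n j) =
        ∏ _j : Fin (d + 1), ∑ y ∈ Icc 1 M, rec ((x : ℤ) - y) := by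
      rw [Finset.prod_univ_sum]
      rfl
    rw [h3, Finset.prod_const, Finset.card_univ, Fintype.card_fin]
    exact pow_le_pow_left₀ (Finset.sum_nonneg fun y _ => rec_nonneg _) (sum_rec_le M x hx) _
  refine (Finset.sum_le_sum h2).trans (le_of_eq ?_)
  rw [Finset.sum_const, Nat.card_Icc, nsmul_eq_mul, Nat.add_sub_cancel]
  push_cast
  ring

end Pool.Agent.Run7.h175.MV
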