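import Mathlib
import Pool.Agent.Run7.h175.MV.Count

set_option autoImplicit false

/-!
# The mean square over polynomial phases and over an interval
-/

open Finset Complex MeasureTheory intervalIntegral
open scoped ComplexConjugate Real

namespace Pool.Agent.Run7.h175.MV

/-- `e(f(n) / Q)` for the polynomial `f = r_1 X + ... + r_d X ^ d` -/
noncomputable def ph (Q d : ℕ) (r : Fin d → Fin Q) (n : ℕ) : ℂ :=
  cexp (2 * π * I * ((∑ j, ((r j).val : ℂ) * (n : ℂ) ^ (j.val + 1)) / Q))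

lemma norm_ph (Q d : ℕ) (r : Fin d → Fin Q) (n : ℕ) : ‖ph Q d r n‖ = 1 := by
  have h : (2 * π * I * ((∑ j, ((r j).val : ℂ) * (n : ℂ) ^ (j.val + 1)) / Q) : ℂ) =
      ((2 * π * ((∑ j, ((r j).val : ℝ) * (n : ℝ) ^ (j.val + 1)) / Q) : ℝ) : ℂ) * I := by
    push_cast
    ring
  unfold ph
  rw [h, Complex.norm_exp_ofReal_mul_I]

lemma geom {Q : ℕ} (Δ : ℤ) (h0 : Δ ≠ 0) (h1 : |Δ| < Q) :
    ∑ x : Fin Q, cexp (2 * π * I * ((x.val : ℂ) * Δ / Q)) = 0 := by
  have hQ : 0 < Q := by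
    rcases Nat.eq_zero_or_pos Q with h | h
    · subst h
      have := abs_nonneg Δ
      push_cast at h1
      omega
    · exact h
  have hQc : (Q : ℂ) ≠ 0 := by exact_mod_cast hQ.ne'
  set ζ : ℂ := cexp (2 * π * I * ((Δ : ℂ) / Q)) with hζ
  have h2 : ∀ x : Fin Q, cexp (2 * π * I * ((x.val : ℂ) * Δ / Q)) = ζ ^ x.val := by
    intro x
    rw [hζ, ← Complex.exp_nat_mul]
    congr 1
    ring
  rw [Finset.sum_congr rfl fun x _ => h2 x, Fin.sum_univ_eq_sum_range (fun i => ζ ^ i)]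
  have h3 : ζ ^ Q = 1 := by
    rw [hζ, ← Complex.exp_nat_mul, Complex.exp_eq_one_iff]
    refine ⟨Δ, ?_⟩
    field_simp
  have h4 : ζ ≠ 1 := by
    intro h
    rw [hζ, Complex.exp_eq_one_iff] at h
    obtain ⟨n, hn⟩ := h
    have h5 : (2 * π * I : ℂ) ≠ 0 := by
      simp [Real.pi_ne_zero]
    have h6 : (Δ : ℂ) / Q = n := by
      have : 2 * π * I * ((Δ : ℂ) / Q) = 2 * π * I * n := by rw [hn]; ring
      exact mul_left_cancel₀ h5 this
    rw [div_eq_iff hQc] at h6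
    have h7 : Δ = n * Q := by exact_mod_cast h6
    rcases eq_or_ne n 0 with hn0 | hn0
    · rw [hn0, zero_mul] at h7
      exact h0 h7
    · have h8 : (1 : ℤ) ≤ |n| := Int.one_le_abs hn0
      rw [h7, abs_mul, Nat.abs_cast] at h1
      have : (0 : ℤ) < Q := by exact_mod_cast hQ
      nlinarith
  rw [geom_sum_eq h4, h3, sub_self, zero_div]

open Classical in
lemma orth {Q d k : ℕ} (n m : Fin k → ℕ)
    (hQ : ∀ j : Fin d, |((∑ i, n i ^ (j.val + 1) : ℕ) : ℤ) - (∑ i, m i ^ (j.val + 1) : ℕ)| < Q) :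
    ∑ r : Fin d → Fin Q, (∏ i, ph Q d r (n i)) * conj (∏ i, ph Q d r (m i)) =
      if Eqp d n m then (Q : ℂ) ^ d else 0 := by
  set Δ : Fin d → ℤ := fun j => ((∑ i, n i ^ (j.val + 1) : ℕ) : ℤ) - (∑ i, m i ^ (j.val + 1) : ℕ)
    with hΔ
  have h1 : ∀ r : Fin d → Fin Q, (∏ i, ph Q d r (n i)) * conj (∏ i, ph Q d r (m i)) =
      ∏ j, cexp (2 * π * I * (((r j).val : ℂ) * (Δ j : ℂ) / Q)) := by
    intro r
    unfold ph
    rw [← Complex.exp_sum, ← Complex.exp_sum, ← Complex.exp_conj, ← Complex.exp_add,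
      ← Complex.exp_sum]
    congr 1
    rw [map_sum]
    have h2 : ∀ i, conj (2 * π * I * ((∑ j, ((r j).val : ℂ) * (m i : ℂ) ^ (j.val + 1)) / Q)) =
        -(2 * π * I * ((∑ j, ((r j).val : ℂ) * (m i : ℂ) ^ (j.val + 1)) / Q)) := by
      intro i
      simp only [map_mul, map_div₀, map_sum, map_pow, Complex.conj_natCast, Complex.conj_ofReal,
        Complex.conj_I, map_ofNat]
      ring
    rw [Finset.sum_congr rfl fun i _ => h2 i, Finset.sum_neg_distrib, ← Finset.mul_sum,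
      ← Finset.mul_sum, ← Finset.mul_sum, ← Finset.sum_div, ← Finset.sum_div, ← Finset.sum_div,
      Finset.sum_comm, Finset.sum_comm (f := fun i j => ((r j).val : ℂ) * (m i : ℂ) ^ (j.val + 1)),
      ← sub_eq_add_neg, ← mul_sub, ← sub_div, ← Finset.sum_sub_distrib]
    congr 2
    refine Finset.sum_congr rfl fun j _ => ?_
    rw [hΔ, ← Finset.mul_sum, ← Finset.mul_sum, ← mul_sub]
    push_cast
    ring
  rw [Finset.sum_congr rfl fun r _ => h1 r]
  have h3 : ∑ r : Fin d → Fin Q, ∏ j, cexp (2 * π * I * (((r j).val : ℂ) * (Δ j : ℂ) / Q)) =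
      ∏ j : Fin d, ∑ x : Fin Q, cexp (2 * π * I * ((x.val : ℂ) * (Δ j : ℂ) / Q)) := by
    rw [Finset.prod_univ_sum, Fintype.piFinset_univ]
  rw [h3]
  split_ifs with h
  · have h4 : ∀ j, Δ j = 0 := by
      intro j
      have := h j
      change ((∑ i, n i ^ (j.val + 1) : ℕ) : ℤ) - (∑ i, m i ^ (j.val + 1) : ℕ) = 0
      rw [this, sub_self]
    simp [h4]
  · unfold Eqp at h
    push Not at h
    obtain ⟨j, hj⟩ := h
    refine Finset.prod_eq_zero (Finset.mem_univ j) (geom (Δ j) ?_ (hQ j))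
    rw [hΔ]
    intro h0
    apply hj
    have := sub_eq_zero.mp h0
    exact_mod_cast this

/-- the integral of an exponential -/
lemma norm_int_le (J : ℝ) (hJ : 0 ≤ J) (a : ℝ) : ‖∫ t in (0 : ℝ)..J, cexp (I * t * a)‖ ≤ J := by
  have h := intervalIntegral.norm_integral_le_of_norm_le_const (a := (0 : ℝ)) (b := J) (C := 1)
    (f := fun t : ℝ => cexp (I * t * a)) (fun t _ => by
      rw [show (I * t * a : ℂ) = ((t * a : ℝ) : ℂ) * I by push_cast; ring,
        Complex.norm_exp_ofReal_mul_I])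
  rw [one_mul, sub_zero, abs_of_nonneg hJ] at h
  exact h

lemma norm_int_le' (J : ℝ) (a : ℝ) (ha : a ≠ 0) :
    ‖∫ t in (0 : ℝ)..J, cexp (I * t * a)‖ ≤ 2 / |a| := by
  have hc : (I * a : ℂ) ≠ 0 := mul_ne_zero I_ne_zero (by exact_mod_cast ha)
  have h1 : ∫ t in (0 : ℝ)..J, cexp (I * t * a) = ∫ t in (0 : ℝ)..J, cexp ((I * a) * t) := by
    refine intervalIntegral.integral_congr fun t _ => ?_
    congr 1
    ring
  rw [h1, integral_exp_mul_complex hc, norm_div]
  have h2 : ‖(I * a : ℂ)‖ = |a| := by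
    rw [norm_mul, Complex.norm_I, one_mul, Complex.norm_real, Real.norm_eq_abs]
  rw [h2]
  refine div_le_div_of_nonneg_right ?_ (abs_nonneg a)
  refine (norm_sub_le _ _).trans ?_
  rw [show (I * a * (J : ℂ) : ℂ) = ((a * J : ℝ) : ℂ) * I by push_cast; ring,
    show (I * a * ((0 : ℝ) : ℂ) : ℂ) = ((0 : ℝ) : ℂ) * I by push_cast; ring,
    Complex.norm_exp_ofReal_mul_I, Complex.norm_exp_ofReal_mul_I]
  norm_num

lemma log_diff {x y B : ℕ} (hx : 1 ≤ x) (hy : 1 ≤ y) (hxB : x ≤ B) (hyB : y ≤ B) :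
    |(x : ℝ) - y| / B ≤ |Real.log x - Real.log y| := by
  wlog h : y ≤ x generalizing x y
  · rw [abs_sub_comm, abs_sub_comm (Real.log x)]
    exact this hy hx hyB hxB (by omega)
  have hxr : (1 : ℝ) ≤ x := by exact_mod_cast hx
  have hyr : (1 : ℝ) ≤ y := by exact_mod_cast hy
  have hyx : (y : ℝ) ≤ x := by exact_mod_cast h
  have hB : (x : ℝ) ≤ B := by exact_mod_cast hxB
  rw [abs_of_nonneg (by linarith), abs_of_nonneg (by
    have := Real.log_le_log (by linarith) hyx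
    linarith)]
  have h1 := Real.log_le_sub_one_of_pos (x := (y : ℝ) / x) (by positivity)
  rw [Real.log_div (by positivity) (by positivity)] at h1
  have h2 : ((x : ℝ) - y) / B ≤ ((x : ℝ) - y) / x :=
    div_le_div_of_nonneg_left (by linarith) (by linarith) hB
  have h3 : ((x : ℝ) - y) / x = 1 - (y : ℝ) / x := by field_simp
  linarith

lemma pr_pos {k M : ℕ} {n : Fin k → ℕ} (hn : n ∈ P k M) : 1 ≤ pr n := by
  unfold pr
  exact Nat.one_le_iff_ne_zero.mpr (Finset.prod_ne_zero_iff.mpr fun i _ => by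
    have := mem_P.mp hn i
    rw [Finset.mem_Icc] at this
    omega)

lemma pr_le {k M : ℕ} {n : Fin k → ℕ} (hn : n ∈ P k M) : pr n ≤ M ^ k := by
  unfold pr
  refine (Finset.prod_le_pow_card _ _ M fun i _ => ?_).trans (by simp)
  have := mem_P.mp hn i
  rw [Finset.mem_Icc] at this
  exact this.2

lemma kernel_le {k M : ℕ} (J : ℝ) {n m : Fin k → ℕ} (hn : n ∈ P k M) (hm : m ∈ P k M)
    (h : pr n ≠ pr m) :
    ‖∫ t in (0 : ℝ)..J, cexp (I * t * ((Real.log (pr n) - Real.log (pr m) : ℝ) : ℂ))‖ ≤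
      2 * (M : ℝ) ^ k * (1 / |((pr n : ℝ) - pr m)|) := by
  have h1 := log_diff (pr_pos hn) (pr_pos hm) (pr_le hn) (pr_le hm)
  have h0 : 0 < |((pr n : ℝ) - pr m)| := by
    rw [abs_pos, sub_ne_zero]
    exact_mod_cast h
  have hB : (0 : ℝ) < (M ^ k : ℕ) := by
    have := (pr_pos hn).trans (pr_le hn)
    exact_mod_cast this
  have h2 : 0 < |Real.log (pr n) - Real.log (pr m)| := lt_of_lt_of_le (by positivity) h1
  refine (norm_int_le' J _ (abs_pos.mp h2)).trans ?_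
  calc 2 / |Real.log (pr n) - Real.log (pr m)| ≤ 2 / (|((pr n : ℝ) - pr m)| / (M ^ k : ℕ)) :=
        div_le_div_of_nonneg_left (by norm_num) (by positivity) h1
    _ = 2 * (M : ℝ) ^ k * (1 / |((pr n : ℝ) - pr m)|) := by
        push_cast
        field_simp

/-- the condition on the modulus -/
lemma modulus {d M Q : ℕ} (hM : 1 ≤ M) (hQ : (d + 1) * M ^ d ≤ Q) {n m : Fin (d + 1) → ℕ}
    (hn : n ∈ P (d + 1) M) (hm : m ∈ P (d + 1) M) (j : Fin d) :
    |((∑ i, n i ^ (j.val + 1) : ℕ) : ℤ) - (∑ i, m i ^ (j.val + 1) : ℕ)| < Q := by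
  have hb : ∀ l ∈ P (d + 1) M, d + 1 ≤ ∑ i, l i ^ (j.val + 1) ∧
      ∑ i, l i ^ (j.val + 1) ≤ (d + 1) * M ^ d := by
    intro l hl
    constructor
    · calc d + 1 = ∑ _i : Fin (d + 1), 1 := by simp
        _ ≤ ∑ i, l i ^ (j.val + 1) := Finset.sum_le_sum fun i _ => by
            have := mem_P.mp hl i
            rw [Finset.mem_Icc] at this
            exact Nat.one_le_pow _ _ this.1
    · calc ∑ i, l i ^ (j.val + 1) ≤ ∑ _i : Fin (d + 1), M ^ d := Finset.sum_le_sum fun i _ => by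
            have := mem_P.mp hl i
            rw [Finset.mem_Icc] at this
            exact (Nat.pow_le_pow_left this.2 _).trans
              (Nat.pow_le_pow_right hM (by have := j.isLt; omega))
        _ = (d + 1) * M ^ d := by simp
  have h1 := hb n hn
  have h2 := hb m hm
  rw [abs_lt]
  constructor <;> omega

/-- the exponential sum over the vectors -/
noncomputable def SS (Q d M : ℕ) (w : (Fin (d + 1) → ℕ) → ℂ) (r : Fin d → Fin Q) (t : ℝ) : ℂ :=
  ∑ n ∈ P (d + 1) M, w n * (∏ i, ph Q d r (n i)) * cexp (I * t * (Real.log (pr n) : ℂ))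

lemma SS_cont (Q d M : ℕ) (w : (Fin (d + 1) → ℕ) → ℂ) (r : Fin d → Fin Q) :
    Continuous (SS Q d M w r) := by
  unfold SS
  fun_prop

open Classical in
/-- **Mean square over all polynomial phases and over `[0, J]`.** -/
theorem mean (Q d M : ℕ) (hM : 1 ≤ M) (hQ : (d + 1) * M ^ d ≤ Q) (w : (Fin (d + 1) → ℕ) → ℂ)
    (B : ℝ) (hw : ∀ n ∈ P (d + 1) M, ‖w n‖ ≤ B) (J : ℝ) (hJ : 0 ≤ J) :
    ∑ r : Fin d → Fin Q, ∫ t in (0 : ℝ)..J, ‖SS Q d M w r t‖ ^ 2 ≤
      (Q : ℝ) ^ d * (B ^ 2 * ((d + 1) ^ (d + 1) * M ^ (d + 1) *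
        (J + 2 * M * (2 * (1 + Real.log M)) ^ (d + 1)))) := by
  have hB : 0 ≤ B := by
    have h1 : (P (d + 1) M).Nonempty := by
      rw [← Finset.card_pos, card_P]
      positivity
    obtain ⟨n, hn⟩ := h1
    exact (norm_nonneg _).trans (hw n hn)
  have h1 : ∑ r : Fin d → Fin Q, ∫ t in (0 : ℝ)..J, ‖SS Q d M w r t‖ ^ 2 =
      ∫ t in (0 : ℝ)..J, ∑ r : Fin d → Fin Q, ‖SS Q d M w r t‖ ^ 2 := by
    rw [intervalIntegral.integral_finsetSum]
    intro r _
    apply Continuous.intervalIntegrable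
    have := SS_cont Q d M w r
    fun_prop
  -- the sum over `r`
  have h2 : ∀ t : ℝ, ((∑ r : Fin d → Fin Q, ‖SS Q d M w r t‖ ^ 2 : ℝ) : ℂ) =
      ∑ n ∈ P (d + 1) M, ∑ m ∈ P (d + 1) M, (w n * conj (w m) * (if Eqp d n m then (Q : ℂ) ^ d
        else 0)) * cexp (I * t * ((Real.log (pr n) - Real.log (pr m) : ℝ) : ℂ)) := by
    intro t
    have h3 : ∀ r : Fin d → Fin Q, ((‖SS Q d M w r t‖ ^ 2 : ℝ) : ℂ) =
        ∑ n ∈ P (d + 1) M, ∑ m ∈ P (d + 1) M, (w n * conj (w m) *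
          ((∏ i, ph Q d r (n i)) * conj (∏ i, ph Q d r (m i)))) *
          cexp (I * t * ((Real.log (pr n) - Real.log (pr m) : ℝ) : ℂ)) := by
      intro r
      rw [Complex.ofReal_pow, ← Complex.mul_conj']
      unfold SS
      rw [map_sum, Finset.sum_mul_sum]
      refine Finset.sum_congr rfl fun n _ => Finset.sum_congr rfl fun m _ => ?_
      rw [map_mul, map_mul, ← Complex.exp_conj]
      have h4 : conj (I * (t : ℂ) * (Real.log (pr m) : ℂ)) = -(I * t * (Real.log (pr m) : ℂ)) := by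
        simp only [map_mul, Complex.conj_ofReal, Complex.conj_I]
        ring
      rw [h4]
      have h5 : cexp (I * t * ((Real.log (pr n) - Real.log (pr m) : ℝ) : ℂ)) =
          cexp (I * t * (Real.log (pr n) : ℂ)) * cexp (-(I * t * (Real.log (pr m) : ℂ))) := by
        rw [← Complex.exp_add]
        congr 1
        push_cast
        ring
      rw [h5]
      ring
    rw [Complex.ofReal_sum, Finset.sum_congr rfl fun r _ => h3 r, Finset.sum_comm]
    refine Finset.sum_congr rfl fun n hn => ?_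
    rw [Finset.sum_comm]
    refine Finset.sum_congr rfl fun m hm => ?_
    rw [← Finset.sum_mul, ← Finset.mul_sum, orth n m (fun j => modulus hM hQ hn hm j)]
  have h3 : ((∫ t in (0 : ℝ)..J, ∑ r : Fin d → Fin Q, ‖SS Q d M w r t‖ ^ 2 : ℝ) : ℂ) =
      ∑ n ∈ P (d + 1) M, ∑ m ∈ P (d + 1) M, (w n * conj (w m) * (if Eqp d n m then (Q : ℂ) ^ d
        else 0)) * ∫ t in (0 : ℝ)..J, cexp (I * t * ((Real.log (pr n) - Real.log (pr m) : ℝ) : ℂ)) := by
    rw [← intervalIntegral.integral_ofReal, intervalIntegral.integral_congr (fun t _ => h2 t),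
      intervalIntegral.integral_finsetSum]
    · refine Finset.sum_congr rfl fun n _ => ?_
      rw [intervalIntegral.integral_finsetSum]
      · refine Finset.sum_congr rfl fun m _ => ?_
        rw [intervalIntegral.integral_const_mul]
      · intro m _
        apply Continuous.intervalIntegrable
        fun_prop
    · intro n _
      apply Continuous.intervalIntegrable
      fun_prop
  have h4 : (∫ t in (0 : ℝ)..J, ∑ r : Fin d → Fin Q, ‖SS Q d M w r t‖ ^ 2) ≤
      ∑ n ∈ P (d + 1) M, ∑ m ∈ P (d + 1) M, ‖(w n * conj (w m) * (if Eqp d n m then (Q : ℂ) ^ d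
        else 0)) * ∫ t in (0 : ℝ)..J, cexp (I * t * ((Real.log (pr n) - Real.log (pr m) : ℝ) : ℂ))‖ := by
    have h5 := congrArg norm h3
    rw [Complex.norm_real, Real.norm_eq_abs] at h5
    refine (le_abs_self _).trans ?_
    rw [h5]
    exact (norm_sum_le _ _).trans (Finset.sum_le_sum fun n _ => norm_sum_le _ _)
  rw [h1]
  refine h4.trans ?_
  -- the pairs
  have h5 : ∀ n ∈ P (d + 1) M, ∑ m ∈ P (d + 1) M, ‖(w n * conj (w m) * (if Eqp d n m then
      (Q : ℂ) ^ d else 0)) * ∫ t in (0 : ℝ)..J, cexp (I * t *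
        ((Real.log (pr n) - Real.log (pr m) : ℝ) : ℂ))‖ ≤
      (Q : ℝ) ^ d * B ^ 2 * (J * (d + 1) ^ (d + 1) + 2 * (M : ℝ) ^ (d + 1) *
        ∑ m ∈ (P (d + 1) M).filter (fun m => Eqp d n m ∧ pr n ≠ pr m),
          1 / |((pr n : ℝ) - pr m)|) := by
    intro n hn
    have h6 : ∀ m ∈ P (d + 1) M, ‖(w n * conj (w m) * (if Eqp d n m then
        (Q : ℂ) ^ d else 0)) * ∫ t in (0 : ℝ)..J, cexp (I * t *
        ((Real.log (pr n) - Real.log (pr m) : ℝ) : ℂ))‖ ≤
        (if Eqp d n m ∧ pr n = pr m then (Q : ℝ) ^ d * B ^ 2 * J else 0) +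
        (if Eqp d n m ∧ pr n ≠ pr m then (Q : ℝ) ^ d * B ^ 2 * (2 * (M : ℝ) ^ (d + 1) *
          (1 / |((pr n : ℝ) - pr m)|)) else 0) := by
      intro m hm
      by_cases h7 : Eqp d n m
      · have h8 : ‖w n * conj (w m) * (Q : ℂ) ^ d‖ ≤ (Q : ℝ) ^ d * B ^ 2 := by
          rw [norm_mul, norm_mul, norm_pow, Complex.norm_natCast, RCLike.norm_conj]
          have h9 : ‖w n‖ * ‖w m‖ ≤ B * B := mul_le_mul (hw n hn) (hw m hm) (norm_nonneg _) hB
          calc ‖w n‖ * ‖w m‖ * (Q : ℝ) ^ d ≤ B * B * (Q : ℝ) ^ d :=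
                mul_le_mul_of_nonneg_right h9 (by positivity)
            _ = (Q : ℝ) ^ d * B ^ 2 := by ring
        rw [if_pos h7, norm_mul]
        by_cases h9 : pr n = pr m
        · rw [if_pos ⟨h7, h9⟩, if_neg (by tauto), add_zero]
          exact mul_le_mul h8 (norm_int_le J hJ _) (norm_nonneg _) (by positivity)
        · rw [if_neg (by tauto), if_pos ⟨h7, h9⟩, zero_add]
          exact mul_le_mul h8 (kernel_le J hn hm h9) (norm_nonneg _) (by positivity)
      · rw [if_neg h7, if_neg (by tauto), if_neg (by tauto)]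
        simp
    refine (Finset.sum_le_sum h6).trans ?_
    rw [Finset.sum_add_distrib, ← Finset.sum_filter, ← Finset.sum_filter, Finset.sum_const,
      nsmul_eq_mul, ← Finset.mul_sum, ← Finset.mul_sum, mul_add]
    refine add_le_add ?_ le_rfl
    have h7 : (((P (d + 1) M).filter fun m => Eqp d n m ∧ pr n = pr m).card : ℝ) ≤
        ((d : ℝ) + 1) ^ (d + 1) := by exact_mod_cast card_diag M n
    calc (((P (d + 1) M).filter fun m => Eqp d n m ∧ pr n = pr m).card : ℝ) *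
          ((Q : ℝ) ^ d * B ^ 2 * J) ≤ ((d : ℝ) + 1) ^ (d + 1) * ((Q : ℝ) ^ d * B ^ 2 * J) :=
          mul_le_mul_of_nonneg_right h7 (by positivity)
      _ = (Q : ℝ) ^ d * B ^ 2 * (J * ((d : ℝ) + 1) ^ (d + 1)) := by ring
  refine (Finset.sum_le_sum h5).trans ?_
  rw [← Finset.mul_sum, Finset.sum_add_distrib, Finset.sum_const, nsmul_eq_mul, card_P,
    ← Finset.mul_sum, mul_assoc ((Q : ℝ) ^ d)]
  refine mul_le_mul_of_nonneg_left (mul_le_mul_of_nonneg_left ?_ (by positivity)) (by positivity)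
  have h6 := sum_inv_le d M
  have h7 : 2 * (M : ℝ) ^ (d + 1) * ∑ n ∈ P (d + 1) M,
      ∑ m ∈ (P (d + 1) M).filter (fun m => Eqp d n m ∧ pr n ≠ pr m), 1 / |((pr n : ℝ) - pr m)| ≤
      2 * (M : ℝ) ^ (d + 1) * (((d : ℝ) + 1) ^ (d + 1) * (M * (2 * (1 + Real.log M)) ^ (d + 1))) :=
    mul_le_mul_of_nonneg_left h6 (by positivity)
  push_cast
  linarith [h7, mul_comm (2 : ℝ) (M : ℝ)]

end Pool.Agent.Run7.h175.MV
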