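import Mathlib
import Pool.Agent.Run7.h175.MV.Mean
import Pool.Agent.W170.MV.Pars

set_option autoImplicit false

/-!
# From the mean square to `1`-separated points, and the exceptional set of polynomial phases
-/

open Finset Complex MeasureTheory intervalIntegral
open scoped ComplexConjugate Real

namespace Pool.Agent.Run7.h175.MV

/-- the twisted Dirichlet polynomial -/
noncomputable def DD (Q d M : ℕ) (a : ℕ → ℂ) (r : Fin d → Fin Q) (t : ℝ) : ℂ :=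
  ∑ n ∈ Icc 1 M, a n * ph Q d r n * cexp (I * t * (Real.log n : ℂ))

lemma log_pr {k M : ℕ} {n : Fin k → ℕ} (hn : n ∈ P k M) :
    Real.log (pr n) = ∑ i, Real.log (n i) := by
  unfold pr
  push_cast
  rw [Real.log_prod]
  intro i _
  have := mem_P.mp hn i
  rw [Finset.mem_Icc] at this
  have : n i ≠ 0 := by omega
  exact_mod_cast this

lemma DD_pow (Q d M : ℕ) (a : ℕ → ℂ) (r : Fin d → Fin Q) (t : ℝ) :
    DD Q d M a r t ^ (d + 1) = SS Q d M (fun n => ∏ i, a (n i)) r t := by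
  have h1 : DD Q d M a r t ^ (d + 1) = ∏ _i : Fin (d + 1), DD Q d M a r t := by
    rw [Finset.prod_const, Finset.card_univ, Fintype.card_fin]
  rw [h1]
  unfold DD SS
  rw [Finset.prod_univ_sum]
  refine Finset.sum_congr rfl fun n hn => ?_
  rw [Finset.prod_mul_distrib, Finset.prod_mul_distrib, ← Complex.exp_sum, log_pr hn]
  congr 2
  push_cast
  rw [Finset.mul_sum]

lemma SS_deriv (Q d M : ℕ) (w : (Fin (d + 1) → ℕ) → ℂ) (r : Fin d → Fin Q) (t : ℝ) :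
    HasDerivAt (SS Q d M w r) (SS Q d M (fun n => I * (Real.log (pr n) : ℂ) * w n) r t) t := by
  unfold SS
  apply HasDerivAt.fun_sum
  intro n _
  have h1 : HasDerivAt (fun t : ℝ => I * (t : ℂ) * (Real.log (pr n) : ℂ))
      (I * (Real.log (pr n) : ℂ)) t := by
    have h2 : HasDerivAt (fun t : ℝ => (t : ℂ)) 1 t := Complex.ofRealCLM.hasDerivAt
    have h3 := (h2.const_mul I).mul_const (Real.log (pr n) : ℂ)
    simpa using h3
  have h2 := (h1.cexp).const_mul (w n * ∏ i, ph Q d r (n i))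
  refine h2.congr_deriv ?_
  ring

/-- the majorant -/
noncomputable def HH (Q d M : ℕ) (a : ℕ → ℂ) (r : Fin d → Fin Q) (J : ℝ) : ℝ :=
  ∫ t in (0 : ℝ)..J, (2 * ‖SS Q d M (fun n => ∏ i, a (n i)) r t‖ ^ 2 +
    ‖SS Q d M (fun n => I * (Real.log (pr n) : ℂ) * ∏ i, a (n i)) r t‖ ^ 2)

lemma integrand_cont (Q d M : ℕ) (a : ℕ → ℂ) (r : Fin d → Fin Q) :
    Continuous fun t => (2 * ‖SS Q d M (fun n => ∏ i, a (n i)) r t‖ ^ 2 +
    ‖SS Q d M (fun n => I * (Real.log (pr n) : ℂ) * ∏ i, a (n i)) r t‖ ^ 2) := by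
  have h1 := SS_cont Q d M (fun n => ∏ i, a (n i)) r
  have h2 := SS_cont Q d M (fun n => I * (Real.log (pr n) : ℂ) * ∏ i, a (n i)) r
  fun_prop

lemma HH_nonneg (Q d M : ℕ) (a : ℕ → ℂ) (r : Fin d → Fin Q) {J : ℝ} (hJ : 0 ≤ J) :
    0 ≤ HH Q d M a r J :=
  intervalIntegral.integral_nonneg hJ fun t _ => by positivity

/-- Gallagher's inequality for a `1`-separated set -/
lemma separated (Q d M : ℕ) (a : ℕ → ℂ) (r : Fin d → Fin Q) (J : ℕ) (S : Finset ℝ)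
    (hS : ∀ t ∈ S, 0 ≤ t ∧ t < J) (hsep : ∀ t ∈ S, ∀ u ∈ S, t ≠ u → 1 ≤ |t - u|) :
    ∑ t ∈ S, ‖DD Q d M a r t‖ ^ (2 * (d + 1)) ≤ HH Q d M a r J := by
  classical
  set G : ℝ → ℝ := fun t => (2 * ‖SS Q d M (fun n => ∏ i, a (n i)) r t‖ ^ 2 +
    ‖SS Q d M (fun n => I * (Real.log (pr n) : ℂ) * ∏ i, a (n i)) r t‖ ^ 2) with hG
  have hGc : Continuous G := integrand_cont Q d M a r
  have h1 : ∀ t ∈ S, ‖DD Q d M a r t‖ ^ (2 * (d + 1)) ≤
      ∫ u in ((⌊t⌋₊ : ℕ) : ℝ)..(((⌊t⌋₊ : ℕ) : ℝ) + 1), G u := by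
    intro t ht
    have h2 := Pool.Agent.W170.MV.gall (fun u => SS_deriv Q d M (fun n => ∏ i, a (n i)) r u)
      (SS_cont Q d M _ r) (SS_cont Q d M _ r) ((⌊t⌋₊ : ℕ) : ℝ) t (Nat.floor_le (hS t ht).1)
      (Nat.lt_floor_add_one t).le
    rw [← DD_pow, norm_pow, ← pow_mul, mul_comm (d + 1) 2] at h2
    exact h2
  refine (Finset.sum_le_sum h1).trans ?_
  have hinj : Set.InjOn (fun t : ℝ => ⌊t⌋₊) (S : Set ℝ) := by
    intro t ht u hu htu
    simp only at htu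
    by_contra hne
    have h3 := hsep t ht u hu hne
    have h4 := Nat.floor_le (hS t ht).1
    have h5 := Nat.lt_floor_add_one t
    have h6 := Nat.floor_le (hS u hu).1
    have h7 := Nat.lt_floor_add_one u
    rw [htu] at h4 h5
    rw [le_abs] at h3
    rcases h3 with h3 | h3 <;> linarith
  have h2 : ∑ t ∈ S, ∫ u in ((⌊t⌋₊ : ℕ) : ℝ)..(((⌊t⌋₊ : ℕ) : ℝ) + 1), G u =
      ∑ j ∈ S.image (fun t : ℝ => ⌊t⌋₊), ∫ u in (j : ℝ)..((j : ℝ) + 1), G u := by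
    rw [Finset.sum_image hinj]
  rw [h2]
  have h3 : S.image (fun t : ℝ => ⌊t⌋₊) ⊆ range J := by
    intro j hj
    rw [Finset.mem_image] at hj
    obtain ⟨t, ht, rfl⟩ := hj
    rw [Finset.mem_range]
    exact (Nat.floor_lt (hS t ht).1).mpr (hS t ht).2
  refine (Finset.sum_le_sum_of_subset_of_nonneg h3 fun j _ _ =>
    intervalIntegral.integral_nonneg (by linarith) fun t _ => by positivity).trans ?_
  have h4 := intervalIntegral.sum_integral_adjacent_intervals (f := G) (μ := volume)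
    (a := fun j : ℕ => (j : ℝ)) (n := J) (fun j _ => hGc.intervalIntegrable _ _)
  simp only [Nat.cast_add, Nat.cast_one, Nat.cast_zero] at h4
  rw [h4]
  exact le_rfl

/-- the average of the majorant -/
lemma sum_HH (Q d M : ℕ) (hM : 1 ≤ M) (hQ : (d + 1) * M ^ d ≤ Q) (a : ℕ → ℂ)
    (ha : ∀ n, ‖a n‖ ≤ 1) (J : ℝ) (hJ : 0 ≤ J) :
    ∑ r : Fin d → Fin Q, HH Q d M a r J ≤ (Q : ℝ) ^ d * (3 * (d + 1) ^ (d + 3) * 2 ^ (d + 2) *
      (1 + Real.log M) ^ (d + 3) * M ^ (d + 1) * (J + M)) := by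
  set L : ℝ := Real.log M with hL
  have hL0 : 0 ≤ L := Real.log_natCast_nonneg M
  have hd0 : (0 : ℝ) ≤ d := Nat.cast_nonneg d
  have hw1 : ∀ n ∈ P (d + 1) M, ‖∏ i, a (n i)‖ ≤ 1 := by
    intro n _
    rw [norm_prod]
    exact Finset.prod_le_one (fun i _ => norm_nonneg _) fun i _ => ha _
  have hw2 : ∀ n ∈ P (d + 1) M, ‖I * (Real.log (pr n) : ℂ) * ∏ i, a (n i)‖ ≤ (d + 1) * L := by
    intro n hn
    rw [norm_mul, norm_mul, Complex.norm_I, one_mul, Complex.norm_real, Real.norm_eq_abs]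
    have h1 : 0 ≤ Real.log (pr n) := Real.log_natCast_nonneg _
    have h2 : Real.log (pr n) ≤ (d + 1) * L := by
      have h3 : Real.log (pr n) ≤ Real.log ((M : ℝ) ^ (d + 1)) := by
        refine Real.log_le_log (by exact_mod_cast pr_pos hn) ?_
        exact_mod_cast pr_le hn
      rw [Real.log_pow] at h3
      push_cast at h3
      exact h3
    rw [abs_of_nonneg h1]
    calc Real.log (pr n) * ‖∏ i, a (n i)‖ ≤ (d + 1) * L * 1 :=
          mul_le_mul h2 (hw1 n hn) (norm_nonneg _) (by positivity)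
      _ = (d + 1) * L := mul_one _
  have h1 := mean Q d M hM hQ (fun n => ∏ i, a (n i)) 1 hw1 J hJ
  have h2 := mean Q d M hM hQ (fun n => I * (Real.log (pr n) : ℂ) * ∏ i, a (n i)) _ hw2 J hJ
  have h3 : ∑ r : Fin d → Fin Q, HH Q d M a r J =
      2 * ∑ r : Fin d → Fin Q, (∫ t in (0 : ℝ)..J, ‖SS Q d M (fun n => ∏ i, a (n i)) r t‖ ^ 2) +
      ∑ r : Fin d → Fin Q, ∫ t in (0 : ℝ)..J,
        ‖SS Q d M (fun n => I * (Real.log (pr n) : ℂ) * ∏ i, a (n i)) r t‖ ^ 2 := by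
    rw [Finset.mul_sum, ← Finset.sum_add_distrib]
    refine Finset.sum_congr rfl fun r _ => ?_
    unfold HH
    have c1 := SS_cont Q d M (fun n => ∏ i, a (n i)) r
    have c2 := SS_cont Q d M (fun n => I * (Real.log (pr n) : ℂ) * ∏ i, a (n i)) r
    rw [intervalIntegral.integral_add, intervalIntegral.integral_const_mul]
    · apply Continuous.intervalIntegrable
      fun_prop
    · apply Continuous.intervalIntegrable
      fun_prop
  rw [h3]
  set X : ℝ := (d + 1) ^ (d + 1) * (M : ℝ) ^ (d + 1) * (J + 2 * M * (2 * (1 + L)) ^ (d + 1)) with hX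
  have hX0 : 0 ≤ X := by positivity
  have h4 : 2 * ((Q : ℝ) ^ d * (1 ^ 2 * X)) + (Q : ℝ) ^ d * (((d + 1) * L) ^ 2 * X) ≤
      (Q : ℝ) ^ d * (3 * (d + 1) ^ (d + 3) * 2 ^ (d + 2) *
      (1 + L) ^ (d + 3) * M ^ (d + 1) * (J + M)) := by
    have h5 : 2 * ((Q : ℝ) ^ d * (1 ^ 2 * X)) + (Q : ℝ) ^ d * (((d + 1) * L) ^ 2 * X) =
        (Q : ℝ) ^ d * ((2 + ((d + 1) * L) ^ 2) * X) := by ring
    rw [h5]
    refine mul_le_mul_of_nonneg_left ?_ (by positivity)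
    have h6 : 2 + (((d : ℝ) + 1) * L) ^ 2 ≤ 3 * (d + 1) ^ 2 * (1 + L) ^ 2 := by
      have e1 : (1 : ℝ) ≤ (d + 1) ^ 2 := by nlinarith
      have e2 : 1 + L ^ 2 ≤ (1 + L) ^ 2 := by nlinarith
      have e3 : (((d : ℝ) + 1) * L) ^ 2 = (d + 1) ^ 2 * L ^ 2 := by ring
      rw [e3]
      nlinarith [mul_le_mul_of_nonneg_left e2 (by positivity : (0 : ℝ) ≤ ((d : ℝ) + 1) ^ 2)]
    have h7 : J + 2 * M * (2 * (1 + L)) ^ (d + 1) ≤ 2 ^ (d + 2) * (1 + L) ^ (d + 1) * (J + M) := by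
      have e1 : (1 : ℝ) ≤ 2 ^ (d + 2) * (1 + L) ^ (d + 1) := by
        have f1 : (1 : ℝ) ≤ 2 ^ (d + 2) := one_le_pow₀ (by norm_num)
        have f2 : (1 : ℝ) ≤ (1 + L) ^ (d + 1) := one_le_pow₀ (by linarith)
        nlinarith
      have e2 : 2 * M * (2 * (1 + L)) ^ (d + 1) = 2 ^ (d + 2) * (1 + L) ^ (d + 1) * M := by
        rw [mul_pow]
        ring
      rw [e2, mul_add]
      have e3 : J ≤ 2 ^ (d + 2) * (1 + L) ^ (d + 1) * J := by nlinarith
      linarith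
    calc (2 + (((d : ℝ) + 1) * L) ^ 2) * X ≤ (3 * (d + 1) ^ 2 * (1 + L) ^ 2) *
          ((d + 1) ^ (d + 1) * (M : ℝ) ^ (d + 1) * (2 ^ (d + 2) * (1 + L) ^ (d + 1) * (J + M))) :=
          mul_le_mul h6 (mul_le_mul_of_nonneg_left h7 (by positivity)) hX0 (by positivity)
      _ = 3 * (d + 1) ^ (d + 3) * 2 ^ (d + 2) * (1 + L) ^ (d + 3) * M ^ (d + 1) * (J + M) := by
          ring
  refine le_trans ?_ h4
  linarith

end Pool.Agent.Run7.h175.MV
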