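import Mathlib
import Pool.Agent.Run7.h175.MV.Gal

set_option autoImplicit false

/-!
# The exceptional set of polynomial phases, uniformly in the range
-/

open Finset Complex MeasureTheory intervalIntegral
open scoped ComplexConjugate Real

namespace Pool.Agent.Run7.h175.MV

lemma log2_le (M : ℕ) (hM : 1 ≤ M) : (Nat.log 2 M : ℝ) ≤ 2 * Real.log M := by
  have h1 : 2 ^ Nat.log 2 M ≤ M := Nat.pow_log_le_self 2 (by omega)
  have h2 : Real.log ((2 : ℝ) ^ Nat.log 2 M) ≤ Real.log M :=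
    Real.log_le_log (by positivity) (by exact_mod_cast h1)
  rw [Real.log_pow] at h2
  have h3 := Real.log_two_gt_d9
  have h4 : (0 : ℝ) ≤ (Nat.log 2 M : ℝ) := Nat.cast_nonneg _
  nlinarith

/-- outside a small set of polynomials, the moment bound holds for all ranges `T ≤ M ^ A` and all
`1`-separated sets at once -/
lemma exc (d A : ℕ) : ∃ C : ℝ, 0 < C ∧ ∀ M Q : ℕ, 1 ≤ M → (d + 1) * M ^ d ≤ Q →
    ∀ a : ℕ → ℂ, (∀ n, ‖a n‖ ≤ 1) → ∀ K : ℝ, 0 < K →
    ∃ E : Finset (Fin d → Fin Q), (E.card : ℝ) * K ≤ (Q : ℝ) ^ d ∧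
      ∀ r ∉ E, ∀ T : ℝ, 1 ≤ T → T ≤ (M : ℝ) ^ A → ∀ S : Finset ℝ,
        (∀ t ∈ S, 0 ≤ t ∧ t ≤ T) → (∀ t ∈ S, ∀ u ∈ S, t ≠ u → 1 ≤ |t - u|) →
        ∑ t ∈ S, ‖DD Q d M a r t‖ ^ (2 * (d + 1)) ≤
          C * K * (1 + Real.log M) ^ (d + 4) * (T + M) * (M : ℝ) ^ (d + 1) := by
  classical
  set c : ℝ := 3 * (d + 1) ^ (d + 3) * 2 ^ (d + 2) with hc
  have hc0 : 0 < c := by positivity
  refine ⟨4 * (A + 2) * c, by positivity, ?_⟩
  intro M Q hM hQ a ha K hK
  have hMr : (1 : ℝ) ≤ (M : ℝ) := by exact_mod_cast hM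
  set L : ℝ := Real.log M with hL
  have hL0 : 0 ≤ L := Real.log_natCast_nonneg M
  set I : ℕ := A * (Nat.log 2 M + 1) + 2 with hI
  set Hs : (Fin d → Fin Q) → ℝ := fun r => ∑ i ∈ range I, HH Q d M a r ((2 : ℝ) ^ i) /
    ((2 : ℝ) ^ i + M) with hHs
  have hHs0 : ∀ r, 0 ≤ Hs r := fun r => Finset.sum_nonneg fun i _ =>
    div_nonneg (HH_nonneg Q d M a r (by positivity)) (by positivity)
  set B : ℝ := I * (c * (1 + L) ^ (d + 3) * (M : ℝ) ^ (d + 1)) with hB
  have hIpos : (0 : ℝ) < I := by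
    have : 0 < I := by omega
    exact_mod_cast this
  have hB0 : 0 < B := by
    have h1 : (0 : ℝ) < 1 + L := by linarith
    positivity
  have hsum : ∑ r : Fin d → Fin Q, Hs r ≤ (Q : ℝ) ^ d * B := by
    rw [hHs]
    simp only
    rw [Finset.sum_comm]
    have h1 : ∀ i ∈ range I, ∑ r : Fin d → Fin Q, HH Q d M a r ((2 : ℝ) ^ i) /
        ((2 : ℝ) ^ i + M) ≤ (Q : ℝ) ^ d * (c * (1 + L) ^ (d + 3) * (M : ℝ) ^ (d + 1)) := by
      intro i _
      rw [← Finset.sum_div, div_le_iff₀ (by positivity)]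
      refine (sum_HH Q d M hM hQ a ha ((2 : ℝ) ^ i) (by positivity)).trans (le_of_eq ?_)
      rw [hc, hL]
      ring
    refine (Finset.sum_le_sum h1).trans (le_of_eq ?_)
    rw [Finset.sum_const, Finset.card_range, nsmul_eq_mul, hB]
    ring
  refine ⟨univ.filter fun r => K * B < Hs r, ?_, ?_⟩
  · have h1 : ((univ.filter fun r => K * B < Hs r).card : ℝ) * (K * B) ≤
        ∑ r ∈ univ.filter (fun r => K * B < Hs r), Hs r := by
      rw [← nsmul_eq_mul]
      refine Finset.card_nsmul_le_sum _ _ _ fun r hr => ?_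
      exact (Finset.mem_filter.mp hr).2.le
    have h2 : ∑ r ∈ univ.filter (fun r => K * B < Hs r), Hs r ≤ ∑ r, Hs r :=
      Finset.sum_le_sum_of_subset_of_nonneg (Finset.subset_univ _) fun r _ _ => hHs0 r
    have h3 : ((univ.filter fun r => K * B < Hs r).card : ℝ) * K * B ≤ (Q : ℝ) ^ d * B := by
      calc ((univ.filter fun r => K * B < Hs r).card : ℝ) * K * B
          = ((univ.filter fun r => K * B < Hs r).card : ℝ) * (K * B) := by ring
        _ ≤ _ := h1.trans (h2.trans hsum)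
    exact le_of_mul_le_mul_right h3 hB0
  · intro r hr T hT1 hTA S hS hsep
    have hr' : Hs r ≤ K * B := by
      by_contra hcon
      exact hr (Finset.mem_filter.mpr ⟨Finset.mem_univ _, not_le.mp hcon⟩)
    obtain ⟨n, hn1, hn2⟩ := exists_nat_pow_near hT1 (by norm_num : (1 : ℝ) < 2)
    have hMlt : (M : ℝ) < 2 ^ (Nat.log 2 M + 1) := by
      have := Nat.lt_pow_succ_log_self (by norm_num : 1 < 2) M
      exact_mod_cast this
    have hnI : n + 1 < I := by
      have h1 : (2 : ℝ) ^ n ≤ 2 ^ (A * (Nat.log 2 M + 1)) := by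
        calc (2 : ℝ) ^ n ≤ T := hn1
          _ ≤ (M : ℝ) ^ A := hTA
          _ ≤ (2 ^ (Nat.log 2 M + 1)) ^ A := pow_le_pow_left₀ (by positivity) hMlt.le A
          _ = 2 ^ (A * (Nat.log 2 M + 1)) := by rw [← pow_mul, mul_comm]
      have h2 : n ≤ A * (Nat.log 2 M + 1) := by
        rwa [pow_le_pow_iff_right₀ (by norm_num : (1 : ℝ) < 2)] at h1
      omega
    have h1 : ∑ t ∈ S, ‖DD Q d M a r t‖ ^ (2 * (d + 1)) ≤ HH Q d M a r ((2 : ℝ) ^ (n + 1)) := by
      have h2 := separated Q d M a r (2 ^ (n + 1)) S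
        (fun t ht => ⟨(hS t ht).1, by
          push_cast
          exact lt_of_le_of_lt (hS t ht).2 hn2⟩) hsep
      push_cast at h2
      exact h2
    have h2 : HH Q d M a r ((2 : ℝ) ^ (n + 1)) / ((2 : ℝ) ^ (n + 1) + M) ≤ Hs r := by
      rw [hHs]
      exact Finset.single_le_sum
        (f := fun i => HH Q d M a r ((2 : ℝ) ^ i) / ((2 : ℝ) ^ i + M))
        (fun i _ => div_nonneg (HH_nonneg Q d M a r (by positivity)) (by positivity))
        (Finset.mem_range.mpr hnI)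
    rw [div_le_iff₀ (by positivity)] at h2
    have h3 : (2 : ℝ) ^ (n + 1) + M ≤ 2 * (T + M) := by
      have : (2 : ℝ) ^ (n + 1) = 2 * 2 ^ n := by ring
      rw [this]
      linarith
    have hIle : (I : ℝ) ≤ 2 * (A + 2) * (1 + L) := by
      have h4 := log2_le M hM
      rw [hI]
      push_cast
      have hA0 : (0 : ℝ) ≤ A := Nat.cast_nonneg A
      nlinarith [mul_nonneg hA0 hL0, mul_le_mul_of_nonneg_left h4 hA0]
    have h1L : (0 : ℝ) < 1 + L := by linarith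
    calc ∑ t ∈ S, ‖DD Q d M a r t‖ ^ (2 * (d + 1)) ≤ Hs r * ((2 : ℝ) ^ (n + 1) + M) :=
          h1.trans h2
      _ ≤ (K * B) * (2 * (T + M)) := mul_le_mul hr' h3 (by positivity) (by positivity)
      _ = K * ((I : ℝ) * (c * (1 + L) ^ (d + 3) * (M : ℝ) ^ (d + 1))) * (2 * (T + M)) := by rw [hB]
      _ ≤ K * ((2 * (A + 2) * (1 + L)) * (c * (1 + L) ^ (d + 3) * (M : ℝ) ^ (d + 1))) *
          (2 * (T + M)) := by
          have hTM : 0 ≤ T + M := by linarith
          gcongr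
      _ = 4 * (A + 2) * c * K * (1 + L) ^ (d + 4) * (T + M) * (M : ℝ) ^ (d + 1) := by ring

end Pool.Agent.Run7.h175.MV
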