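import Mathlib
import Pool.Agent.Run7.h175.MV.Exc

set_option autoImplicit false

/-!
# The exceptional set with powers in place of logarithms, and consequences
-/

open Finset Complex
open scoped Real

namespace Pool.Agent.Run7.h175.MV

lemma log_pow_le (k : ℕ) (ε : ℝ) (hε : 0 < ε) : ∃ C : ℝ, 0 < C ∧ ∀ M : ℕ, 1 ≤ M →
    (1 + Real.log M) ^ k ≤ C * (M : ℝ) ^ ε := by
  set δ : ℝ := ε / (k + 1) with hδ
  have hδ0 : 0 < δ := by positivity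
  refine ⟨(1 + 1 / δ) ^ k, by positivity, ?_⟩
  intro M hM
  have hMr : (1 : ℝ) ≤ (M : ℝ) := by exact_mod_cast hM
  have h1 : Real.log M ≤ (M : ℝ) ^ δ / δ := Real.log_le_rpow_div (by positivity) hδ0
  have h2 : (1 : ℝ) ≤ (M : ℝ) ^ δ := Real.one_le_rpow hMr hδ0.le
  have h3 : 0 ≤ Real.log M := Real.log_natCast_nonneg M
  have h4 : 1 + Real.log M ≤ (1 + 1 / δ) * (M : ℝ) ^ δ := by
    have : (1 + 1 / δ) * (M : ℝ) ^ δ = (M : ℝ) ^ δ + (M : ℝ) ^ δ / δ := by ring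
    rw [this]
    linarith
  calc (1 + Real.log M) ^ k ≤ ((1 + 1 / δ) * (M : ℝ) ^ δ) ^ k :=
        pow_le_pow_left₀ (by linarith) h4 k
    _ = (1 + 1 / δ) ^ k * (M : ℝ) ^ (δ * k) := by
        rw [mul_pow, ← Real.rpow_natCast ((M : ℝ) ^ δ) k, ← Real.rpow_mul (by positivity)]
    _ ≤ (1 + 1 / δ) ^ k * (M : ℝ) ^ ε := by
        refine mul_le_mul_of_nonneg_left ?_ (by positivity)
        refine Real.rpow_le_rpow_of_exponent_le hMr ?_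
        rw [hδ, div_mul_eq_mul_div, div_le_iff₀ (by positivity)]
        nlinarith

/-- the property of a polynomial: the moments of order `2 (d + 1)` are small for all ranges and all
`1`-separated sets -/
def Good (Q d M : ℕ) (a : ℕ → ℂ) (A Y : ℝ) (r : Fin d → Fin Q) : Prop :=
  ∀ T : ℝ, 1 ≤ T → T ≤ (M : ℝ) ^ A → ∀ S : Finset ℝ, (∀ t ∈ S, 0 ≤ t ∧ t ≤ T) →
    (∀ t ∈ S, ∀ u ∈ S, t ≠ u → 1 ≤ |t - u|) →
    ∑ t ∈ S, ‖DD Q d M a r t‖ ^ (2 * (d + 1)) ≤ Y * (T + M) * (M : ℝ) ^ (d + 1)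

lemma coreM (d : ℕ) (A ε : ℝ) (hε : 0 < ε) : ∃ C : ℝ, 0 < C ∧ ∀ M Q : ℕ, 1 ≤ M →
    (d + 1) * M ^ d ≤ Q → ∀ a : ℕ → ℂ, (∀ n, ‖a n‖ ≤ 1) → ∀ K : ℝ, 0 < K →
    ∃ E : Finset (Fin d → Fin Q), (E.card : ℝ) * K ≤ (Q : ℝ) ^ d ∧
      ∀ r ∉ E, Good Q d M a A (C * K * (M : ℝ) ^ ε) r := by
  obtain ⟨C1, hC1, h1⟩ := exc d ⌈max A 0⌉₊
  obtain ⟨C2, hC2, h2⟩ := log_pow_le (d + 4) ε hε
  refine ⟨C1 * C2, by positivity, ?_⟩
  intro M Q hM hQ a ha K hK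
  have hMr : (1 : ℝ) ≤ (M : ℝ) := by exact_mod_cast hM
  obtain ⟨E, hE1, hE2⟩ := h1 M Q hM hQ a ha K hK
  refine ⟨E, hE1, ?_⟩
  intro r hr T hT1 hTA S hS hsep
  have hTA' : T ≤ (M : ℝ) ^ ⌈max A 0⌉₊ := by
    refine hTA.trans ?_
    rw [← Real.rpow_natCast]
    exact Real.rpow_le_rpow_of_exponent_le hMr ((le_max_left _ _).trans (Nat.le_ceil _))
  refine (hE2 r hr T hT1 hTA' S hS hsep).trans ?_
  have h3 := h2 M hM
  have h4 : 0 ≤ T + M := by positivity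
  calc C1 * K * (1 + Real.log M) ^ (d + 4) * (T + M) * (M : ℝ) ^ (d + 1)
      ≤ C1 * K * (C2 * (M : ℝ) ^ ε) * (T + M) * (M : ℝ) ^ (d + 1) := by gcongr
    _ = C1 * C2 * K * (M : ℝ) ^ ε * (T + M) * (M : ℝ) ^ (d + 1) := by ring

/-- the coefficients on the dyadic interval -/
noncomputable def dy (N : ℕ) (b : ℕ → ℂ) (n : ℕ) : ℂ := if N ≤ n then b n else 0

lemma dy_le (N : ℕ) (b : ℕ → ℂ) (hb : ∀ n, ‖b n‖ ≤ 1) (n : ℕ) : ‖dy N b n‖ ≤ 1 := by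
  unfold dy
  split_ifs
  · exact hb n
  · simp

lemma DD_dy (Q d N : ℕ) (hN : 1 ≤ N) (b : ℕ → ℂ) (r : Fin d → Fin Q) (t : ℝ) :
    DD Q d (2 * N) (dy N b) r t =
      ∑ n ∈ Icc N (2 * N), b n * ph Q d r n * cexp (I * t * (Real.log n : ℂ)) := by
  unfold DD dy
  have h1 : Icc N (2 * N) = (Icc 1 (2 * N)).filter (fun n => N ≤ n) := by
    ext n
    simp only [Finset.mem_Icc, Finset.mem_filter]
    omega
  rw [h1, Finset.sum_filter]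
  refine Finset.sum_congr rfl fun n _ => ?_
  split_ifs
  · rfl
  · simp

lemma norm_DD_le (Q d M : ℕ) (a : ℕ → ℂ) (ha : ∀ n, ‖a n‖ ≤ 1) (r : Fin d → Fin Q) (t : ℝ) :
    ‖DD Q d M a r t‖ ≤ M := by
  unfold DD
  refine (norm_sum_le _ _).trans ?_
  have h1 : ∀ n ∈ Icc 1 M, ‖a n * ph Q d r n * cexp (I * t * (Real.log n : ℂ))‖ ≤ 1 := by
    intro n _
    have h2 : ‖cexp (I * t * (Real.log n : ℂ))‖ = 1 := by
      have : (I * t * (Real.log n : ℂ)) = ((t * Real.log n : ℝ) : ℂ) * I := by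
        push_cast
        ring
      rw [this, Complex.norm_exp_ofReal_mul_I]
    rw [norm_mul, norm_mul, h2, norm_ph, mul_one, mul_one]
    exact ha n
  refine (Finset.sum_le_sum h1).trans ?_
  simp

/-- a consequence for dyadic sums -/
lemma coreN (d : ℕ) (A ε : ℝ) (hε : 0 < ε) : ∃ C : ℝ, 1 ≤ C ∧ ∀ N Q : ℕ, 1 ≤ N →
    (d + 1) * (2 * N) ^ d ≤ Q → ∀ b : ℕ → ℂ, (∀ n, ‖b n‖ ≤ 1) → ∀ K : ℝ, 0 < K →
    ∃ E : Finset (Fin d → Fin Q), (E.card : ℝ) * K ≤ (Q : ℝ) ^ d ∧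
      ∀ r ∉ E, ∀ T : ℝ, (N : ℝ) ≤ T → T ≤ (N : ℝ) ^ A → ∀ S : Finset ℝ,
        (∀ t ∈ S, 0 ≤ t ∧ t ≤ T) → (∀ t ∈ S, ∀ u ∈ S, t ≠ u → 1 ≤ |t - u|) →
        ∑ t ∈ S, ‖DD Q d (2 * N) (dy N b) r t‖ ^ (2 * (d + 1)) ≤
          C * K * (N : ℝ) ^ ε * T * (N : ℝ) ^ (d + 1) := by
  obtain ⟨C, hC, h⟩ := coreM d (max A 0) ε hε
  refine ⟨max 1 (C * 2 ^ ε * 3 * 2 ^ (d + 1)), le_max_left _ _, ?_⟩
  intro N Q hN hQ b hb K hK
  have hNr : (1 : ℝ) ≤ (N : ℝ) := by exact_mod_cast hN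
  obtain ⟨E, hE1, hE2⟩ := h (2 * N) Q (by omega) hQ (dy N b) (dy_le N b hb) K hK
  refine ⟨E, hE1, ?_⟩
  intro r hr T hT1 hTA S hS hsep
  have hTA' : T ≤ ((2 * N : ℕ) : ℝ) ^ (max A 0) := by
    refine hTA.trans ?_
    refine (Real.rpow_le_rpow_of_exponent_le hNr (le_max_left A 0)).trans ?_
    refine Real.rpow_le_rpow (by positivity) ?_ (le_max_right _ _)
    push_cast
    linarith
  refine (hE2 r hr T (by linarith) hTA' S hS hsep).trans ?_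
  push_cast
  rw [Real.mul_rpow (by norm_num) (by positivity)]
  have h4 : 0 ≤ T := by linarith
  calc C * K * ((2 : ℝ) ^ ε * (N : ℝ) ^ ε) * (T + 2 * N) * (2 * (N : ℝ)) ^ (d + 1)
      ≤ C * K * ((2 : ℝ) ^ ε * (N : ℝ) ^ ε) * (3 * T) * (2 * (N : ℝ)) ^ (d + 1) := by
        gcongr
        linarith
    _ = (C * 2 ^ ε * 3 * 2 ^ (d + 1)) * K * (N : ℝ) ^ ε * T * (N : ℝ) ^ (d + 1) := by
        rw [mul_pow]
        ring
    _ ≤ max 1 (C * 2 ^ ε * 3 * 2 ^ (d + 1)) * K * (N : ℝ) ^ ε * T * (N : ℝ) ^ (d + 1) := by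
        gcongr
        exact le_max_right _ _

/-- the power mean inequality -/
lemma pmean {α : Type*} (S : Finset α) (f : α → ℝ) (hf : ∀ x ∈ S, 0 ≤ f x) {q p X Y : ℝ}
    (hq : 0 < q) (hqp : q ≤ p) (hX : 0 ≤ X) (hcard : (S.card : ℝ) ≤ X)
    (hsum : ∑ x ∈ S, f x ^ p ≤ Y) :
    ∑ x ∈ S, f x ^ q ≤ X ^ (1 - q / p) * Y ^ (q / p) := by
  have hp : 0 < p := by linarith
  have hY : 0 ≤ Y := (Finset.sum_nonneg fun x hx => Real.rpow_nonneg (hf x hx) _).trans hsum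
  have h1 : 1 ≤ p / q := by
    rw [le_div_iff₀ hq]
    linarith
  have h2 := Real.rpow_sum_le_const_mul_sum_rpow_of_nonneg S (f := fun x => f x ^ q) h1
    (fun x hx => Real.rpow_nonneg (hf x hx) _)
  have h3 : ∑ x ∈ S, (f x ^ q) ^ (p / q) = ∑ x ∈ S, f x ^ p := by
    refine Finset.sum_congr rfl fun x hx => ?_
    rw [← Real.rpow_mul (hf x hx)]
    congr 1
    field_simp
  rw [h3] at h2
  have h4 : 0 ≤ ∑ x ∈ S, f x ^ q := Finset.sum_nonneg fun x hx => Real.rpow_nonneg (hf x hx) _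
  have h5 : (∑ x ∈ S, f x ^ q) ^ (p / q) ≤ X ^ (p / q - 1) * Y := by
    refine h2.trans ?_
    refine mul_le_mul ?_ hsum
      (Finset.sum_nonneg fun x hx => Real.rpow_nonneg (hf x hx) _) (Real.rpow_nonneg hX _)
    exact Real.rpow_le_rpow (by positivity) hcard (by linarith)
  have h6 := Real.rpow_le_rpow (Real.rpow_nonneg h4 _) h5 (by positivity : 0 ≤ q / p)
  rw [← Real.rpow_mul h4, Real.mul_rpow (Real.rpow_nonneg hX _) hY, ← Real.rpow_mul hX] at h6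
  have e1 : p / q * (q / p) = 1 := by field_simp
  have e2 : (p / q - 1) * (q / p) = 1 - q / p := by field_simp
  rw [e1, e2, Real.rpow_one] at h6
  exact h6

end Pool.Agent.Run7.h175.MV
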